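import Pool.Agent.H360R2.RG.Stubs
import Pool.Agent.H297R2.LG.Mom1

/-! Pointwise bound for the signed two-sided Dirichlet polynomial `EES` (adapted from TEAM LG,
`H297R2/LG/Mom0.lean` and `Mom1.lean`). -/

open Complex Filter Topology Set MeasureTheory

namespace RGap

open SG (hh nn dd dl ord NZ)
open SP (RHs ZZ mu wt Mk Par Eb PS chi qq tt)
open LG (gK gh Zs bk lk fam prs nA yp ae EE Cn QT tm sm sm0 IsQ SF SM)
open LG.MomA (en ww mem_fam prime_of_mem log_nA conj_exp incl_excl norm_ww ww_conj F_bound)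

namespace MomS

/-- the signed twist of the coefficient of a prime -/
noncomputable def wS (P : Par) (r : ℝ) (s : ℕ → ℝ) (T t : ℝ) (p : ℕ) : ℂ :=
  (s (Eb P T p) : ℂ) * ww P r T t p

noncomputable def zS (P : Par) (r : ℝ) (F s : ℕ → ℝ) (T t : ℝ) (A : Finset ℕ) : ℂ :=
  (F (en P T A) : ℂ) * ∏ p ∈ A, wS P r s T t p

lemma zS_eq {P : Par} {r : ℝ} {F s : ℕ → ℝ} {T t : ℝ} {A : Finset ℕ} (hA : A ⊆ PS P T) :
    zS P r F s T t A = (aeS P r F s T A : ℂ) * cexp (I * ((t * Real.log (nA A) : ℝ) : ℂ)) := by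
  unfold zS aeS sg LG.ae wS ww en
  rw [log_nA hA, Finset.prod_mul_distrib, Finset.prod_mul_distrib]
  push_cast
  rw [Finset.mul_sum, Finset.mul_sum, Complex.exp_sum]
  ring

lemma abs_sgn {s : ℕ → ℝ} (hs : IsSgn s) (m : ℕ) : |s m| = 1 := by
  rcases hs m with h | h <;> rw [h] <;> simp

lemma norm_wS (P : Par) (r : ℝ) {s : ℕ → ℝ} (hs : IsSgn s) (T t : ℝ) (p : ℕ) :
    ‖wS P r s T t p‖ = |yp P r T p| := by
  unfold wS
  rw [norm_mul, norm_ww, Complex.norm_real, Real.norm_eq_abs, abs_sgn hs, one_mul]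

/-- the sum over the sets containing `C` -/
noncomputable def DCS (P : Par) (B0 : ℕ) (r : ℝ) (F s : ℕ → ℝ) (T t : ℝ) (C : Finset ℕ) : ℂ :=
  ∑ A ∈ (fam P B0 T).filter (fun A => C ⊆ A), zS P r F s T t A

lemma EES_zz (P : Par) (B0 : ℕ) (r : ℝ) (F s : ℕ → ℝ) (T t : ℝ) :
    EES P B0 r F s T t = ∑ A ∈ fam P B0 T, ∑ B ∈ fam P B0 T,
      if Disjoint A B then zS P r F s T t B * (starRingEnd ℂ) (zS P r F s T t A) else 0 := by
  unfold EES prs
  rw [Finset.sum_filter, Finset.sum_product]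
  apply Finset.sum_congr rfl
  intro A hA
  apply Finset.sum_congr rfl
  intro B hB
  split_ifs with h
  · rw [zS_eq (mem_fam.mp hA).1, zS_eq (mem_fam.mp hB).1, map_mul, conj_exp, Complex.conj_ofReal]
    have : cexp (I * ((t * (Real.log (nA B) - Real.log (nA A)) : ℝ) : ℂ)) =
        cexp (I * ((t * Real.log (nA B) : ℝ) : ℂ)) * cexp (-(I * ((t * Real.log (nA A) : ℝ) : ℂ))) := by
      rw [← Complex.exp_add]
      congr 1
      push_cast
      ring
    simp only [this]
    push_cast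
    ring
  · rfl

theorem EES_eq (P : Par) (B0 : ℕ) (r : ℝ) (F s : ℕ → ℝ) (T t : ℝ) :
    EES P B0 r F s T t = ∑ C ∈ fam P B0 T, (-1 : ℂ) ^ C.card *
      (DCS P B0 r F s T t C * (starRingEnd ℂ) (DCS P B0 r F s T t C)) := by
  rw [EES_zz]
  have h1 : ∀ A ∈ fam P B0 T, ∀ B ∈ fam P B0 T,
      (if Disjoint A B then zS P r F s T t B * (starRingEnd ℂ) (zS P r F s T t A) else 0) =
      ∑ C ∈ fam P B0 T, if (C ⊆ A ∧ C ⊆ B) then
        (-1 : ℂ) ^ C.card * (zS P r F s T t B * (starRingEnd ℂ) (zS P r F s T t A)) else 0 := by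
    intro A hA B hB
    have h2 : (if Disjoint A B then zS P r F s T t B * (starRingEnd ℂ) (zS P r F s T t A) else 0) =
        (if Disjoint A B then (1 : ℂ) else 0) *
          (zS P r F s T t B * (starRingEnd ℂ) (zS P r F s T t A)) := by
      split_ifs <;> simp
    rw [h2, incl_excl, Finset.sum_mul, ← Finset.sum_filter]
    apply Finset.sum_congr _ (fun _ _ => rfl)
    ext C
    rw [Finset.mem_powerset, Finset.mem_filter, Finset.subset_inter_iff]
    constructor
    · intro h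
      refine ⟨?_, h⟩
      rw [mem_fam] at hA ⊢
      refine ⟨h.1.trans hA.1, le_trans ?_ hA.2⟩
      exact Finset.sum_le_sum_of_subset h.1
    · exact fun h => h.2
  rw [Finset.sum_congr rfl (fun A hA => Finset.sum_congr rfl (fun B hB => h1 A hA B hB))]
  rw [Finset.sum_congr rfl (fun A _ => Finset.sum_comm), Finset.sum_comm]
  apply Finset.sum_congr rfl
  intro C _
  unfold DCS
  rw [map_sum, Finset.sum_mul_sum, Finset.sum_filter, Finset.mul_sum]
  rw [Finset.sum_comm]
  apply Finset.sum_congr rfl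
  intro B _
  by_cases hCB : C ⊆ B
  · simp only [hCB, and_true, if_true]
    rw [Finset.sum_filter, Finset.mul_sum]
    apply Finset.sum_congr rfl
    intro A _
    split_ifs <;> simp
  · simp only [hCB, and_false, if_false, Finset.sum_const_zero, mul_zero]

/-- factorisation of `DC` -/
theorem DCS_eq (P : Par) (B0 : ℕ) (r : ℝ) (F s : ℕ → ℝ) (T t : ℝ) (C : Finset ℕ)
    (hC : C ∈ fam P B0 T) :
    DCS P B0 r F s T t C = (∏ p ∈ C, wS P r s T t p) *
      ∑ n ∈ Finset.range (B0 - en P T C + 1), (F (en P T C + n) : ℂ) *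
        qq (PS P T \ C) (Eb P T) (wS P r s T t) n := by
  obtain ⟨hC1, hC2⟩ := mem_fam.mp hC
  have hen : ∀ B : Finset ℕ, Disjoint C B → en P T (C ∪ B) = en P T C + en P T B := by
    intro B hB
    unfold en
    exact Finset.sum_union hB
  have h1 : DCS P B0 r F s T t C = ∑ B ∈ ((PS P T \ C).powerset).filter
      (fun B => en P T C + en P T B ≤ B0), zS P r F s T t (C ∪ B) := by
    unfold DCS
    apply Finset.sum_bij' (fun A _ => A \ C) (fun B _ => C ∪ B)
    · intro A hA
      rw [Finset.mem_filter, mem_fam] at hA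
      rw [Finset.mem_filter, Finset.mem_powerset]
      refine ⟨Finset.sdiff_subset_sdiff hA.1.1 (le_refl _), ?_⟩
      rw [← hen _ Finset.disjoint_sdiff, Finset.union_sdiff_of_subset hA.2]
      exact hA.1.2
    · intro B hB
      rw [Finset.mem_filter, Finset.mem_powerset] at hB
      have hd : Disjoint C B := by
        rw [Finset.disjoint_left]
        intro x hx hxB
        have := hB.1 hxB
        rw [Finset.mem_sdiff] at this
        exact this.2 hx
      rw [Finset.mem_filter, mem_fam]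
      refine ⟨⟨Finset.union_subset hC1 (hB.1.trans Finset.sdiff_subset), ?_⟩,
        Finset.subset_union_left⟩
      rw [hen _ hd]
      exact hB.2
    · intro A hA
      rw [Finset.mem_filter] at hA
      exact Finset.union_sdiff_of_subset hA.2
    · intro B hB
      rw [Finset.mem_filter, Finset.mem_powerset] at hB
      ext x
      rw [Finset.mem_sdiff, Finset.mem_union]
      constructor
      · rintro ⟨h | h, h'⟩
        · exact absurd h h'
        · exact h
      · intro h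
        have := hB.1 h
        rw [Finset.mem_sdiff] at this
        exact ⟨Or.inr h, this.2⟩
    · intro A hA
      rw [Finset.mem_filter] at hA
      rw [Finset.union_sdiff_of_subset hA.2]
  rw [h1]
  have h2 : ∀ B ∈ ((PS P T \ C).powerset).filter (fun B => en P T C + en P T B ≤ B0),
      zS P r F s T t (C ∪ B) = ∑ n ∈ Finset.range (B0 - en P T C + 1),
        if en P T B = n then (∏ p ∈ C, wS P r s T t p) * ((F (en P T C + n) : ℂ) *
          ∏ p ∈ B, wS P r s T t p) else 0 := by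
    intro B hB
    rw [Finset.mem_filter, Finset.mem_powerset] at hB
    have hd : Disjoint C B := by
      rw [Finset.disjoint_left]
      intro x hx hxB
      have := hB.1 hxB
      rw [Finset.mem_sdiff] at this
      exact this.2 hx
    rw [Finset.sum_ite_eq, if_pos (by rw [Finset.mem_range]; omega)]
    unfold zS
    rw [hen _ hd, Finset.prod_union hd]
    ring
  rw [Finset.sum_congr rfl h2, Finset.sum_comm, Finset.mul_sum]
  apply Finset.sum_congr rfl
  intro n hn
  rw [Finset.mem_range] at hn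
  unfold qq
  rw [← Finset.sum_filter, Finset.filter_filter, Finset.mul_sum, Finset.mul_sum]
  apply Finset.sum_congr
  · ext B
    rw [Finset.mem_filter, Finset.mem_filter]
    constructor
    · rintro ⟨h3, h4, h5⟩
      exact ⟨h3, h5⟩
    · rintro ⟨h3, h5⟩
      have h6 : en P T B = n := h5
      exact ⟨h3, by omega, h6⟩
  · intro B _
    rfl


/-- bound for the power sums over `PS \ C` -/
theorem ttS_bound (hRH : RHs) (P : Par) (B0 : ℕ) (hB : P.B = 2 * B0) (r : ℝ) (hr : 0 < r)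
    {s : ℕ → ℝ} (hs : IsSgn s) :
    ∃ K T0 : ℝ, 1 ≤ K ∧ 10 ≤ T0 ∧ ∀ T : ℝ, T0 ≤ T → ∀ t : ℝ,
    T + 2 * Real.log T ≤ t → t ≤ 2 * T - 2 * Real.log T → ∀ C ∈ fam P B0 T,
    ∀ m, 1 ≤ m → m ≤ P.B →
    ‖tt (PS P T \ C) (Eb P T) (wS P r s T t) m‖ ≤ K * (1 + Mk T 1 t) := by
  obtain ⟨C1, T1, hC1, hT1, h1⟩ := SP.Pj_bound hRH P
  obtain ⟨C2, T2, hC2, hT2, h2⟩ := SP.chi_approx P
  obtain ⟨C3, T3, hC3, hT3, h3⟩ := LG.fam_facts P B0 hB r (fun _ => 1)
  refine ⟨1 + P.B * (r * C1 + B0) + P.B * (C3 * C2), max (max T1 T2) (max T3 (Real.exp 20)), ?_, ?_, ?_⟩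
  · have : (0:ℝ) ≤ P.B * (r * C1 + B0) := by positivity
    have : (0:ℝ) ≤ P.B * (C3 * C2) := by positivity
    linarith
  · exact hT1.trans ((le_max_left _ _).trans (le_max_left _ _))
  intro T hT t ht ht' C hC m hm hmB
  simp only [max_le_iff] at hT
  obtain ⟨⟨hTT1, hTT2⟩, hTT3, hTe⟩ := hT
  have hT10 : 10 ≤ T := hT1.trans hTT1
  have hL20 : 20 ≤ Real.log T := by
    rw [Real.le_log_iff_exp_le (by linarith)]; exact hTe
  obtain ⟨hchi, hsum⟩ := h2 T hTT2
  obtain ⟨hf1, hf2, -, -⟩ := h3 T hTT3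
  set M := Mk T 1 t with hM
  have hM0 : 0 ≤ M := SP.DpB_Mk_nonneg _ _ _
  have hdl0 : 0 ≤ dl P.c T := by
    unfold dl
    have := P.hc
    have := Real.pi_pos
    positivity
  have hdl1 : dl P.c T ≤ 1 := by
    unfold dl
    rw [div_le_one (by linarith)]
    have := P.hc1
    have := P.hc
    have := Real.pi_lt_four
    nlinarith [Real.pi_pos]
  have hP := h1 T hTT1 (t + dl P.c T / 2) (by linarith) (by linarith) m
  have e0 : t + dl P.c T / 2 - dl P.c T / 2 = t := by ring
  rw [e0, ← hM] at hP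
  obtain ⟨hC1', hC2'⟩ := mem_fam.mp hC
  set y : ℕ → ℂ := wS P r s T t with hy
  have hmem : ∀ p ∈ PS P T, 1 ≤ p ∧ p.Prime ∧ 2 ≤ Eb P T p := by
    intro p hp
    have := prime_of_mem hp
    exact ⟨this.1.one_lt.le, this.1, this.2⟩
  have hy1 : ∀ p ∈ PS P T, ‖y p‖ ≤ 1 := by
    intro p hp
    rw [hy, norm_wS P r hs]
    exact (hf2 p hp).1
  have hy2 : ∀ p ∈ PS P T, ‖y p‖ ^ 2 ≤ C3 * (1 / p) := by
    intro p hp
    rw [hy, norm_wS P r hs, sq_abs]
    have := (hf2 p hp).2.1
    rwa [mul_one_div]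
  have hsplit : tt (PS P T \ C) (Eb P T) y m =
      (∑ p ∈ (PS P T \ C).filter (fun p => Eb P T p = m), (m : ℂ) * y p) +
      ∑ p ∈ (PS P T \ C).filter (fun p => ¬ Eb P T p = m),
        if Eb P T p ∣ m then (-1 : ℂ) ^ (m / Eb P T p - 1) * (Eb P T p : ℂ) *
          y p ^ (m / Eb P T p) else 0 := by
    unfold tt
    rw [← Finset.sum_filter_add_sum_filter_not (PS P T \ C) (fun p => Eb P T p = m)]
    congr 1
    apply Finset.sum_congr rfl
    intro p hp
    rw [Finset.mem_filter] at hp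
    rw [hp.2]
    simp [Nat.div_self hm]
  rw [hsplit]
  have hA : ‖∑ p ∈ (PS P T \ C).filter (fun p => Eb P T p = m), (m : ℂ) * y p‖ ≤
      P.B * (r * C1 + B0) * (1 + M) := by
    rw [← Finset.mul_sum, norm_mul, Complex.norm_natCast]
    have h5 : ‖∑ p ∈ (PS P T).filter (fun p => Eb P T p = m), y p‖ ≤ r * (C1 * (1 + M)) := by
      have h60 : ∑ p ∈ (PS P T).filter (fun p => Eb P T p = m), y p =
          (s m : ℂ) * ∑ p ∈ (PS P T).filter (fun p => Eb P T p = m), ww P r T t p := by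
        rw [Finset.mul_sum]
        apply Finset.sum_congr rfl
        intro p hp
        rw [Finset.mem_filter] at hp
        rw [hy]
        unfold wS
        rw [hp.2]
      have h6 : (starRingEnd ℂ) (∑ p ∈ (PS P T).filter (fun p => Eb P T p = m), ww P r T t p) =
          (r : ℂ) * ∑ p ∈ (PS P T).filter (fun p => Eb P T p = m), (chi P T p : ℂ) *
            (p : ℂ) ^ (hh (dl P.c T) - (⟨1 / 2, t + dl P.c T / 2⟩ : ℂ)) := by
        rw [map_sum, Finset.mul_sum]
        apply Finset.sum_congr rfl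
        intro p hp
        rw [Finset.mem_filter] at hp
        exact ww_conj P r T t p (hmem p hp.1).1
      rw [h60, norm_mul, Complex.norm_real, Real.norm_eq_abs, abs_sgn hs, one_mul,
        ← RCLike.norm_conj, h6, norm_mul, Complex.norm_real, Real.norm_eq_abs, abs_of_pos hr]
      exact mul_le_mul_of_nonneg_left hP hr.le
    have h7 : ∑ p ∈ (PS P T \ C).filter (fun p => Eb P T p = m), y p =
        ∑ p ∈ (PS P T).filter (fun p => Eb P T p = m), y p -
          ∑ p ∈ C.filter (fun p => Eb P T p = m), y p := by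
      rw [eq_sub_iff_add_eq, ← Finset.sum_union]
      · apply Finset.sum_congr _ (fun _ _ => rfl)
        rw [← Finset.filter_union, Finset.sdiff_union_of_subset hC1']
      · apply Finset.disjoint_filter_filter
        exact Finset.sdiff_disjoint
    have h8 : ‖∑ p ∈ C.filter (fun p => Eb P T p = m), y p‖ ≤ B0 := by
      calc _ ≤ ∑ p ∈ C.filter (fun p => Eb P T p = m), ‖y p‖ := norm_sum_le _ _
        _ ≤ ∑ p ∈ C.filter (fun p => Eb P T p = m), 1 := by
            apply Finset.sum_le_sum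
            intro p hp
            rw [Finset.mem_filter] at hp
            exact hy1 p (hC1' hp.1)
        _ = ((C.filter (fun p => Eb P T p = m)).card : ℝ) := by simp
        _ ≤ B0 := by
            have := (hf1 C hC).2.2.2
            exact_mod_cast (Finset.card_filter_le _ _).trans this
    rw [h7]
    have h9 := (norm_sub_le (∑ p ∈ (PS P T).filter (fun p => Eb P T p = m), y p)
          (∑ p ∈ C.filter (fun p => Eb P T p = m), y p)).trans (add_le_add h5 h8)
    calc (m : ℝ) * _ ≤ P.B * (r * (C1 * (1 + M)) + B0) := by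
          apply mul_le_mul (by exact_mod_cast hmB) h9 (norm_nonneg _) (by positivity)
      _ ≤ P.B * (r * C1 + B0) * (1 + M) := by
          have e1 : (0 : ℝ) ≤ P.B * B0 * M := by positivity
          nlinarith
  have hBd : ‖∑ p ∈ (PS P T \ C).filter (fun p => ¬ Eb P T p = m),
        if Eb P T p ∣ m then (-1 : ℂ) ^ (m / Eb P T p - 1) * (Eb P T p : ℂ) *
          y p ^ (m / Eb P T p) else 0‖ ≤ P.B * (C3 * C2) := by
    calc _ ≤ ∑ p ∈ (PS P T \ C).filter (fun p => ¬ Eb P T p = m),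
          ‖if Eb P T p ∣ m then (-1 : ℂ) ^ (m / Eb P T p - 1) * (Eb P T p : ℂ) *
            y p ^ (m / Eb P T p) else 0‖ := norm_sum_le _ _
      _ ≤ ∑ p ∈ (PS P T \ C).filter (fun p => ¬ Eb P T p = m), P.B * (C3 * (1 / p : ℝ)) := by
        apply Finset.sum_le_sum
        intro p hp
        rw [Finset.mem_filter, Finset.mem_sdiff] at hp
        obtain ⟨hp1, hpp, hE2⟩ := hmem p hp.1.1
        have hpB : (0:ℝ) ≤ P.B * (C3 * (1 / p : ℝ)) := by positivity
        split_ifs with hd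
        · obtain ⟨j, hj⟩ := hd
          have hEpos : 0 < Eb P T p := by omega
          have hdiv : m / Eb P T p = j := by rw [hj]; exact Nat.mul_div_cancel_left j hEpos
          have hj2 : 2 ≤ j := by
            by_contra hlt
            have : j = 0 ∨ j = 1 := by omega
            rcases this with h | h
            · rw [h] at hj; omega
            · rw [h, mul_one] at hj; exact hp.2 hj.symm
          rw [hdiv, norm_mul, norm_mul, norm_pow, norm_neg, norm_one, one_pow, one_mul,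
            Complex.norm_natCast, norm_pow]
          have hyr : ‖y p‖ ^ j ≤ C3 * (1 / p : ℝ) :=
            (pow_le_pow_of_le_one (norm_nonneg _) (hy1 p hp.1.1) hj2).trans (hy2 p hp.1.1)
          apply mul_le_mul _ hyr (by positivity) (by positivity)
          exact_mod_cast (hchi p hp.1.1).1
        · rw [norm_zero]; exact hpB
      _ ≤ ∑ p ∈ PS P T, P.B * (C3 * (1 / p : ℝ)) := by
        apply Finset.sum_le_sum_of_subset_of_nonneg
          ((Finset.filter_subset _ _).trans Finset.sdiff_subset)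
        intro p _ _
        positivity
      _ = P.B * (C3 * ∑ p ∈ PS P T, (1 / p : ℝ)) := by rw [Finset.mul_sum, Finset.mul_sum]
      _ ≤ P.B * (C3 * C2) := by gcongr
  calc _ ≤ P.B * (r * C1 + B0) * (1 + M) + P.B * (C3 * C2) :=
        le_trans (norm_add_le _ _) (add_le_add hA hBd)
    _ ≤ _ := by
      have e1 : 0 ≤ (P.B : ℝ) * (C3 * C2) := by positivity
      have e2 := mul_nonneg e1 hM0
      nlinarith


end MomS

open MomS

theorem EES_bound (hRH : RHs) (P : Par) (B0 : ℕ) (hB : P.B = 2 * B0) (r : ℝ) (hr : 0 < r)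
    {s : ℕ → ℝ} (hs : IsSgn s) (F : ℕ → ℝ) : ∃ C T0 : ℝ, 0 < C ∧ 10 ≤ T0 ∧ ∀ T : ℝ, T0 ≤ T → ∀ t : ℝ,
    T + 2 * Real.log T ≤ t → t ≤ 2 * T - 2 * Real.log T →
    ‖EES P B0 r F s T t‖ ≤ C * (1 + Mk T 1 t) ^ (2 * B0) := by
  obtain ⟨K, T1, hK, hT1, h1⟩ := ttS_bound hRH P B0 hB r hr hs
  obtain ⟨C3, T3, hC3, hT3, h3⟩ := LG.fam_facts P B0 hB r (fun _ => 1)
  obtain ⟨KF, hKF, hF⟩ := F_bound F B0
  refine ⟨C3 * ((B0 + 1) * KF * K ^ B0) ^ 2, max T1 T3, by positivity,
    hT1.trans (le_max_left _ _), ?_⟩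
  intro T hT t ht ht'
  simp only [max_le_iff] at hT
  obtain ⟨hTT1, hTT3⟩ := hT
  obtain ⟨-, -, -, hX⟩ := h3 T hTT3
  set M := Mk T 1 t with hM
  have hM0 : 0 ≤ M := SP.DpB_Mk_nonneg _ _ _
  have hKM : 1 ≤ K * (1 + M) := by nlinarith
  have hD : ∀ C ∈ fam P B0 T, ‖DCS P B0 r F s T t C‖ ≤
      (∏ p ∈ C, |yp P r T p|) * ((B0 + 1) * KF * (K * (1 + M)) ^ B0) := by
    intro C hC
    obtain ⟨hC1, hC2⟩ := mem_fam.mp hC
    rw [DCS_eq P B0 r F s T t C hC, norm_mul, norm_prod]
    have e1 : ∏ p ∈ C, ‖wS P r s T t p‖ = ∏ p ∈ C, |yp P r T p| :=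
      Finset.prod_congr rfl (fun p _ => norm_wS P r hs T t p)
    rw [e1]
    apply mul_le_mul_of_nonneg_left _ (Finset.prod_nonneg (fun p _ => abs_nonneg _))
    have hE : ∀ p ∈ PS P T \ C, 1 ≤ Eb P T p := by
      intro p hp
      rw [Finset.mem_sdiff] at hp
      have := (prime_of_mem hp.1).2
      omega
    obtain ⟨hq0, hq⟩ := SP.newton (PS P T \ C) (Eb P T) hE (wS P r s T t)
    have hqn := SP.DpB.newton_growth (qq (PS P T \ C) (Eb P T) (wS P r s T t))
      (tt (PS P T \ C) (Eb P T) (wS P r s T t)) (K * (1 + M)) hKM B0 hq0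
      (fun m hm hmB => h1 T hTT1 t ht ht' C hC m hm (by omega)) hq
    calc _ ≤ ∑ n ∈ Finset.range (B0 - en P T C + 1), ‖(F (en P T C + n) : ℂ) *
          qq (PS P T \ C) (Eb P T) (wS P r s T t) n‖ := norm_sum_le _ _
      _ ≤ ∑ n ∈ Finset.range (B0 - en P T C + 1), KF * (K * (1 + M)) ^ B0 := by
          apply Finset.sum_le_sum
          intro n hn
          rw [Finset.mem_range] at hn
          rw [norm_mul, Complex.norm_real, Real.norm_eq_abs]
          apply mul_le_mul (hF _ (by omega)) _ (norm_nonneg _) hKF.le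
          exact (hqn n (by omega)).trans (pow_le_pow_right₀ hKM (by omega))
      _ = (B0 - en P T C + 1 : ℕ) * (KF * (K * (1 + M)) ^ B0) := by
          rw [Finset.sum_const, Finset.card_range, nsmul_eq_mul]
      _ ≤ ((B0 : ℝ) + 1) * (KF * (K * (1 + M)) ^ B0) := by
          apply mul_le_mul_of_nonneg_right _ (by positivity)
          push_cast
          have : ((B0 - en P T C : ℕ) : ℝ) ≤ B0 := by exact_mod_cast Nat.sub_le _ _
          linarith
      _ = _ := by ring
  rw [EES_eq]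
  calc _ ≤ ∑ C ∈ fam P B0 T, ‖(-1 : ℂ) ^ C.card *
      (DCS P B0 r F s T t C * (starRingEnd ℂ) (DCS P B0 r F s T t C))‖ := norm_sum_le _ _
    _ ≤ ∑ C ∈ fam P B0 T, (∏ p ∈ C, yp P r T p ^ 2) *
        ((B0 + 1) * KF * (K * (1 + M)) ^ B0) ^ 2 := by
        apply Finset.sum_le_sum
        intro C hC
        rw [norm_mul, norm_pow, norm_neg, norm_one, one_pow, one_mul, norm_mul, RCLike.norm_conj,
          ← sq]
        have e1 : (∏ p ∈ C, yp P r T p ^ 2) = (∏ p ∈ C, |yp P r T p|) ^ 2 := by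
          rw [← Finset.prod_pow]
          exact Finset.prod_congr rfl (fun p _ => (sq_abs _).symm)
        rw [e1, ← mul_pow]
        exact pow_le_pow_left₀ (norm_nonneg _) (hD C hC) 2
    _ = (∑ C ∈ fam P B0 T, ∏ p ∈ C, yp P r T p ^ 2) *
        ((B0 + 1) * KF * (K * (1 + M)) ^ B0) ^ 2 := by rw [Finset.sum_mul]
    _ ≤ C3 * ((B0 + 1) * KF * (K * (1 + M)) ^ B0) ^ 2 := by gcongr
    _ = C3 * ((B0 + 1) * KF * K ^ B0) ^ 2 * (1 + M) ^ (2 * B0) := by
        rw [mul_pow K, mul_comm 2 B0, pow_mul]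
        ring


theorem EESB_proof : EESB := by
  intro hRH P B0 hB r hr F s hs
  exact EES_bound hRH P B0 hB r hr hs F

end RGap
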